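import Pool.Agent.P.MP_ff4c85_gt.TM.Tame

set_option autoImplicit false

namespace Pool.Agent.Results.MP_ff4c85_gt.TameMaps

theorem result : ∀ (L : FirstOrder.Language.{0, 0}) [L.Structure ℝ],
    (Set.univ : Set ℝ).Definable₂ L {p : ℝ × ℝ | p.1 < p.2} →
    (∀ S : Set ℝ, (Set.univ : Set ℝ).Definable₁ L S → (frontier S).Finite) →
    ∀ (n : ℕ) (T : EuclideanSpace ℝ (Fin n) → EuclideanSpace ℝ (Fin n)),
      (Set.univ : Set ℝ).DefinableMap L
        (fun (v : Fin n → ℝ) (i : Fin n) => T (WithLp.toLp 2 v) i) →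
      (∃ B : ℝ, ∀ (x : EuclideanSpace ℝ (Fin n)) (j k : ℕ), dist (T^[j] x) (T^[k] x) < B) →
      ∀ r : ℝ, ∃ c : EuclideanSpace ℝ (Fin n), ∀ x ∈ Metric.closedBall c r, T x = x := by
  rintro L _ h1 h2 n T hT ⟨B, hB⟩ r
  have le (x y : EuclideanSpace ℝ (Fin n)) : dist x.ofLp y.ofLp ≤ dist x y :=
    (dist_pi_le_iff dist_nonneg).2 fun i => PiLp.dist_apply_le x y i
  have it (v : Fin n → ℝ) (k : ℕ) :
      (fun (v : Fin n → ℝ) (i : Fin n) => T (WithLp.toLp 2 v) i)^[k] v =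
        (T^[k] (WithLp.toLp 2 v)).ofLp := by
    induction k with
    | zero => rfl
    | succ k ih => rw [Function.iterate_succ_apply', Function.iterate_succ_apply', ih]
  obtain ⟨c, hc⟩ := Pool.Agent.P.MP_ff4c85_gt.TM.OM.main ⟨h1, h2⟩ hT (B := B)
    (fun v k => by
      rw [it]
      exact (le _ (WithLp.toLp 2 v)).trans (hB _ k 0).le) r
  refine ⟨WithLp.toLp 2 c, fun x hx => ?_⟩
  have := hc x.ofLp ((le x (WithLp.toLp 2 c)).trans hx)
  ext i
  exact congrFun this i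

end Pool.Agent.Results.MP_ff4c85_gt.TameMaps
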