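import Pool.Agent.P.MP_ff4c85_gt.T.All
import Pool.Agent.P.MP_ff4c85_gt.TwoB
import Pool.Agent.P.MP_ff4c85_gt.RDefs

set_option autoImplicit false

open MeasureTheory

namespace Pool.Agent.Results.MP_ff4c85_gt.VolumePreserving

open Pool.Agent.P.MP_ff4c85_gt

theorem good_int (n : ℕ) (hn : 3 ≤ n) (ε : ℝ) (hε : 0 < ε) :
    ∃ (V : EuclideanSpace ℝ (Fin n) → EuclideanSpace ℝ (Fin n)) (K : NNReal) (C D : ℝ),
      Good V K C D ∧ K < 1 ∧ D < ε ∧ ∀ i x, V (x + EuclideanSpace.single i 1) = V x := by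
  obtain ⟨K0, C0, b, h0, hp⟩ := T.all_GOOD
  obtain ⟨V, K, C, D, δ, hV, -, -, hδ, hper⟩ := h0.euclid b n hn 1 one_pos
  obtain ⟨N, hN⟩ := exists_nat_gt ((|D| + 1) / (ε * δ))
  have hN0 : (0 : ℝ) < N := lt_trans (by positivity) hN
  set r : NNReal := ⟨N * δ, by positivity⟩ with hr
  have hr0 : 0 < r := show (0 : ℝ) < N * δ by positivity
  have hc : 0 < (K * r + 1)⁻¹ := by positivity
  refine ⟨_, _, _, _, hV.scale hc hr0, ?_, ?_, fun i x => ?_⟩
  · rw [inv_mul_lt_iff₀ (by positivity), mul_one]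
    exact lt_add_one _
  · change D / (N * δ) < ε
    rw [div_lt_iff₀ (by positivity)] at hN ⊢
    nlinarith [le_abs_self D]
  · have e : (r : ℝ) • (x + EuclideanSpace.single i 1) =
        (r : ℝ) • x + N • EuclideanSpace.single i δ := by
      rw [smul_add]
      congr 1
      ext j
      change (N * δ) * _ = _
      by_cases hj : j = i <;> simp [hj]
    have hq : Function.Periodic V (EuclideanSpace.single i δ) := hper hp i
    simp only [e, hq.nsmul N _]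

theorem strong (n : ℕ) (hn : 3 ≤ n) (ε : ℝ) (hε : 0 < ε) :
    ∃ T : EuclideanSpace ℝ (Fin n) ≃ₜ EuclideanSpace ℝ (Fin n),
      (∀ x, T x ≠ x) ∧ (∀ x (j k : ℕ), dist ((⇑T)^[j] x) ((⇑T)^[k] x) < ε) ∧
      MeasurePreserving T volume volume ∧
      ∃ (V : EuclideanSpace ℝ (Fin n) → EuclideanSpace ℝ (Fin n))
        (φ : ℝ → EuclideanSpace ℝ (Fin n) ≃ₜ EuclideanSpace ℝ (Fin n)),
        T = φ 1 ∧ SmoothDivFree V ∧ IsFlowOf V φ ∧
        (∀ i, HasPeriod V φ (EuclideanSpace.single i 1)) ∧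
        (∀ t, MeasurePreserving (φ t) volume volume) ∧
        (∀ x s t, dist (φ s x) (φ t x) < ε) ∧
        ∀ t, 0 < t → t ≤ 1 → ∀ x, φ t x ≠ x := by
  obtain ⟨V, K, C, D, hV, hK, hD, hp⟩ := good_int n hn ε hε
  obtain ⟨φ, hφ⟩ := exists_isFlow hV.lip hV.bound
  have hd : ∀ x s t, dist (φ s x) (φ t x) < ε := fun x s t =>
    (hV.diam _ (hφ.deriv x) s t).trans_lt hD
  have hm := hφ.measurePreserving volume hV.lip hV.bound hV.diff hV.trace
  have hf : ∀ t, 0 < t → t ≤ 1 → ∀ x, φ t x ≠ x := fun t ht ht1 x =>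
    hφ.ne_self hV.lip hV.ne ht (by
      have h1 : (K : ℝ) < 1 := hK
      nlinarith [K.2]) x
  refine ⟨hφ.homeo hV.lip 1, hf 1 one_pos le_rfl, fun x j k => ?_, hm 1, V, hφ.homeo hV.lip, rfl,
    ⟨hV.smooth, hV.ne, hV.trace⟩, ⟨hφ.zero, hφ.add hV.lip, hφ.deriv⟩,
    fun i => ⟨hp i, fun t x => hφ.translate hV.lip (hp i) t x⟩, hm, hd, hf⟩
  change dist ((φ 1)^[j] x) ((φ 1)^[k] x) < ε
  rw [hφ.iterate hV.lip, hφ.iterate hV.lip]
  exact hd x j k

/-- For a dimension `n` the following are equivalent: `n ≥ 3`; Euclidean `n`-space has a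
homeomorphism without fixed point whose forward orbits are uniformly bounded; for every `ε > 0` it
has such a homeomorphism `T` that preserves Lebesgue measure, has orbits of diameter at most `ε`
and is the time one map of the measure preserving flow of a smooth, divergence-free, nowhere zero,
`ℤ ^ n`-periodic vector field all of whose trajectories have diameter at most `ε`. -/
theorem result (n : ℕ) : List.TFAE [3 ≤ n,
    ∃ T : EuclideanSpace ℝ (Fin n) ≃ₜ EuclideanSpace ℝ (Fin n),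
      (∀ x, T x ≠ x) ∧ ∃ B : ℝ, ∀ x (j k : ℕ), dist ((⇑T)^[j] x) ((⇑T)^[k] x) < B,
    ∀ ε : ℝ, 0 < ε → ∃ T : EuclideanSpace ℝ (Fin n) ≃ₜ EuclideanSpace ℝ (Fin n),
      (∀ x, T x ≠ x) ∧ (∀ x (j k : ℕ), dist ((⇑T)^[j] x) ((⇑T)^[k] x) < ε) ∧
      MeasurePreserving T volume volume ∧
      ∃ (V : EuclideanSpace ℝ (Fin n) → EuclideanSpace ℝ (Fin n))
        (φ : ℝ → EuclideanSpace ℝ (Fin n) ≃ₜ EuclideanSpace ℝ (Fin n)),
        T = φ 1 ∧ SmoothDivFree V ∧ IsFlowOf V φ ∧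
        (∀ i, HasPeriod V φ (EuclideanSpace.single i 1)) ∧
        (∀ t, MeasurePreserving (φ t) volume volume) ∧
        (∀ x s t, dist (φ s x) (φ t x) < ε) ∧
        ∀ t, 0 < t → t ≤ 1 → ∀ x, φ t x ≠ x] := by
  tfae_have 1 → 3 := strong n
  tfae_have 3 → 2 := fun h => by
    obtain ⟨T, h1, h2, -⟩ := h 1 one_pos
    exact ⟨T, h1, 1, h2⟩
  tfae_have 2 → 1 := by
    rintro ⟨T, h1, B, h2⟩
    by_contra hn
    obtain ⟨x, hx⟩ := fix_of_le_two (by omega) T h2
    exact h1 x hx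
  tfae_finish

end Pool.Agent.Results.MP_ff4c85_gt.VolumePreserving
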